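import Mathlib
import Pool.Agent.H5.EG.Spec2

/-!
# MP_98cfca_co, Q1: no operator with small coefficients kills `W` (statement `S_final`)
-/

set_option autoImplicit false

namespace Pool.Agent.H400.EG

open Finset Filter Topology
open Pool.Agent.H5.EG

/-- the coefficient of index `m₀ + r N` -/
theorem coeff_sum {B r : ℕ} (hr : 1 ≤ r) (W : PowerSeries ℤ)
    (hW0 : ∀ n, ¬ r ∣ n → PowerSeries.coeff n W = 0) (A : Fin (B + 1) → PowerSeries ℤ) (m₀ : ℕ)
    (hA2 : ∀ i, ∀ n < m₀, PowerSeries.coeff n (A i) = 0) (N : ℕ) :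
    PowerSeries.coeff (m₀ + r * N) (∑ i, A i * D^[(i : ℕ)] W) =
      ∑ i : Fin (B + 1), ∑ k ∈ range (N + 1), PowerSeries.coeff (m₀ + r * k) (A i) *
        (((r * (N - k) : ℕ) : ℤ) ^ (i : ℕ) * PowerSeries.coeff (r * (N - k)) W) := by
  rw [map_sum]
  refine sum_congr rfl fun i _ => ?_
  rw [PowerSeries.coeff_mul]
  simp only [coeff_D_iter]
  symm
  refine Finset.sum_of_injOn (fun k => (m₀ + r * k, r * (N - k))) ?_ ?_ ?_ ?_
  · intro k _ k' _ hkk
    have h1 : m₀ + r * k = m₀ + r * k' := (Prod.ext_iff.mp hkk).1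
    have h2 : r * k = r * k' := by omega
    exact Nat.eq_of_mul_eq_mul_left (by omega) h2
  · intro k hk
    rw [mem_coe, mem_range] at hk
    rw [mem_coe, Finset.HasAntidiagonal.mem_antidiagonal]
    have h1 : r * N = r * k + r * (N - k) := by
      rw [← Nat.mul_add]
      congr 1
      omega
    change m₀ + r * k + r * (N - k) = m₀ + r * N
    omega
  · rintro ⟨p, q⟩ hpq himg
    rw [Finset.HasAntidiagonal.mem_antidiagonal] at hpq
    simp only at hpq ⊢
    by_cases hp : p < m₀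
    · rw [hA2 i p hp, zero_mul]
    · by_cases hq : r ∣ q
      · exfalso
        obtain ⟨l, rfl⟩ := hq
        have h1 : r * l ≤ r * N := by omega
        have h2 : l ≤ N := Nat.le_of_mul_le_mul_left h1 (by omega)
        apply himg
        refine ⟨N - l, ?_, ?_⟩
        · rw [mem_coe, mem_range]
          omega
        · have h3 : r * N = r * (N - l) + r * l := by
            rw [← Nat.mul_add]
            congr 1
            omega
          have h4 : N - (N - l) = l := by omega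
          simp only [h4, Prod.mk.injEq, and_true]
          omega
      · rw [hW0 q hq, mul_zero, mul_zero]
  · intro k _
    rfl

/-- the scaled coefficients of the operator -/
noncomputable def ah {B : ℕ} (r : ℕ) (A : Fin (B + 1) → PowerSeries ℤ) (m₀ : ℕ) (i : Fin (B + 1))
    (k : ℕ) : ℝ := ((PowerSeries.coeff (m₀ + r * k) (A i) : ℤ) : ℝ) * (r : ℝ) ^ (i : ℕ) / (r : ℝ) ^ k

/-- the scaled coefficients of `W` -/
noncomputable def wh (r : ℕ) (W : PowerSeries ℤ) (l : ℕ) : ℝ :=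
  ((PowerSeries.coeff (r * l) W : ℤ) : ℝ) / (r : ℝ) ^ l

theorem key {B r : ℕ} (hr : 1 ≤ r) (W : PowerSeries ℤ)
    (hW0 : ∀ n, ¬ r ∣ n → PowerSeries.coeff n W = 0) (A : Fin (B + 1) → PowerSeries ℤ) (m₀ : ℕ)
    (hA2 : ∀ i, ∀ n < m₀, PowerSeries.coeff n (A i) = 0) (N : ℕ)
    (hA4 : PowerSeries.coeff (m₀ + r * N) (∑ i, A i * D^[(i : ℕ)] W) = 0) :
    ∑ i : Fin (B + 1), ∑ k ∈ range (N + 1), ah r A m₀ i k * ((N - k : ℕ) : ℝ) ^ (i : ℕ) *
      wh r W (N - k) = 0 := by
  have hr0 : (0 : ℝ) < r := by exact_mod_cast hr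
  rw [coeff_sum hr W hW0 A m₀ hA2] at hA4
  have h1 := congrArg (fun z : ℤ => (z : ℝ)) hA4
  simp only [Int.cast_sum, Int.cast_mul, Int.cast_pow, Int.cast_natCast, Int.cast_zero] at h1
  have h2 : (r : ℝ) ^ N * ∑ i : Fin (B + 1), ∑ k ∈ range (N + 1), ah r A m₀ i k *
      ((N - k : ℕ) : ℝ) ^ (i : ℕ) * wh r W (N - k) = 0 := by
    rw [← h1, mul_sum]
    refine sum_congr rfl fun i _ => ?_
    rw [mul_sum]
    refine sum_congr rfl fun k hk => ?_
    rw [mem_range] at hk
    unfold ah wh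
    have h3 : (r : ℝ) ^ N = (r : ℝ) ^ k * (r : ℝ) ^ (N - k) := by
      rw [← pow_add]
      congr 1
      omega
    rw [h3]
    push_cast
    rw [mul_pow]
    field_simp
  exact (mul_eq_zero.mp h2).resolve_left (by positivity)

theorem ah_bound {B C r : ℕ} (hr : 1 ≤ r) (A : Fin (B + 1) → PowerSeries ℤ) (m₀ : ℕ)
    (i : Fin (B + 1)) (k : ℕ) (hk : B + C + 2 ≤ k)
    (h : |PowerSeries.coeff (m₀ + r * k) (A i)| ≤ (r : ℤ) ^ C) : |ah r A m₀ i k| ≤ 1 / (r : ℝ) := by
  have hr1 : (1 : ℝ) ≤ r := by exact_mod_cast hr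
  have hr0 : (0 : ℝ) < r := by linarith
  unfold ah
  rw [abs_div, abs_mul, abs_of_pos (pow_pos hr0 k), abs_of_pos (pow_pos hr0 _)]
  have h1 : |((PowerSeries.coeff (m₀ + r * k) (A i) : ℤ) : ℝ)| ≤ (r : ℝ) ^ C := by
    exact_mod_cast h
  rw [div_le_div_iff₀ (by positivity) hr0, one_mul]
  calc |((PowerSeries.coeff (m₀ + r * k) (A i) : ℤ) : ℝ)| * (r : ℝ) ^ (i : ℕ) * r
      ≤ (r : ℝ) ^ C * (r : ℝ) ^ (i : ℕ) * r := by gcongr
    _ = (r : ℝ) ^ (C + (i : ℕ) + 1) := by rw [pow_succ, pow_add]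
    _ ≤ (r : ℝ) ^ k := pow_le_pow_right₀ hr1 (by have := i.2; omega)

/-- the sum over `k ≤ N` as a truncated sum and a remainder -/
theorem split_sum (K N : ℕ) (s : ℕ → ℝ) (hs : ∀ k, N < k → s k = 0) :
    ∑ k ∈ range (N + 1), s k =
      ∑ k : Fin (K + 1), s k + ∑ k ∈ range (N + 1), s (K + 1 + k) := by
  rw [Fin.sum_univ_eq_sum_range s (K + 1), ← sum_range_add]
  have h : range (N + 1) ⊆ range (K + 1 + (N + 1)) := by
    intro x hx
    rw [mem_range] at hx ⊢
    omega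
  refine sum_subset h fun x _ hx => hs x ?_
  rw [mem_range] at hx
  omega

theorem final (h1 : S_coef) (h2 : S_inj) : S_final := by
  intro B m C hm
  by_contra hneg
  push Not at hneg
  choose r hr V W hW A m₀ hA1 hA2 hA3 hA4 using fun j : ℕ => hneg (j + 1)
  have hr1 : ∀ j, 1 ≤ r j := fun j => by have := hr j; omega
  have hr0 : ∀ j, (0 : ℝ) < r j := fun j => by exact_mod_cast hr1 j
  have hrt : Tendsto (fun j => (r j : ℝ)) atTop atTop := by
    refine tendsto_atTop_mono (fun j => ?_) (tendsto_natCast_atTop_atTop (R := ℝ))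
    exact_mod_cast (Nat.le_succ j).trans (hr j)
  have hrinv : Tendsto (fun j => 1 / (r j : ℝ)) atTop (𝓝 0) := by
    simp only [one_div]
    exact tendsto_inv_atTop_zero.comp hrt
  -- the coefficients of `W`
  have hw : ∀ l, Tendsto (fun j => wh (r j) (W j) l) atTop (𝓝 (FL m l)) := by
    intro l
    rw [Metric.tendsto_atTop]
    intro ε hε
    obtain ⟨r₀, hr₀⟩ := h1.2 m l (ε / 2) (by positivity)
    refine ⟨r₀, fun j hj => ?_⟩
    have h3 := hr₀ (r j) (by have := hr j; omega) (V j) (W j) (hW j)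
    rw [Real.dist_eq]
    unfold wh
    linarith
  have hW0 : ∀ j n, ¬ r j ∣ n → PowerSeries.coeff n (W j) = 0 :=
    fun j n hn => h1.1 m (r j) (V j) (W j) (hr1 j) (hW j) n hn
  -- the vector of the scaled coefficients
  obtain ⟨a, ha⟩ : ∃ a : ℕ → Fin (B + 1) → Fin (B + C + 1 + 1) → ℝ,
      a = fun j i (k : Fin (B + C + 1 + 1)) => ah (r j) (A j) (m₀ j) i (k : ℕ) := ⟨_, rfl⟩
  have hnorm : ∀ j, 1 ≤ ‖a j‖ := by
    intro j
    obtain ⟨i, hi⟩ := hA1 j
    have h3 : (1 : ℝ) ≤ |ah (r j) (A j) (m₀ j) i 0| := by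
      unfold ah
      rw [mul_zero, add_zero, pow_zero, div_one, abs_mul, abs_of_pos (pow_pos (hr0 j) _)]
      have h4 : (1 : ℝ) ≤ |((PowerSeries.coeff (m₀ j) (A j i) : ℤ) : ℝ)| := by
        exact_mod_cast Int.one_le_abs hi
      have h5 : (1 : ℝ) ≤ (r j : ℝ) ^ (i : ℕ) := one_le_pow₀ (by exact_mod_cast hr1 j)
      nlinarith
    have h6 : |a j i 0| ≤ ‖a j‖ := (norm_le_pi_norm (a j i) 0).trans (norm_le_pi_norm (a j) i)
    rw [ha] at h6 ⊢
    exact h3.trans h6
  have hnorm0 : ∀ j, 0 < ‖a j‖ := fun j => lt_of_lt_of_le one_pos (hnorm j)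
  obtain ⟨b, hb⟩ : ∃ b : ℕ → Fin (B + 1) → Fin (B + C + 1 + 1) → ℝ,
      b = fun j => ‖a j‖⁻¹ • a j := ⟨_, rfl⟩
  have hbs : ∀ j, b j ∈ Metric.sphere (0 : Fin (B + 1) → Fin (B + C + 1 + 1) → ℝ) 1 := by
    intro j
    rw [mem_sphere_zero_iff_norm, hb, norm_smul, norm_inv, norm_norm]
    exact inv_mul_cancel₀ (hnorm0 j).ne'
  obtain ⟨c, hc, φ, hφ, hlim⟩ := (isCompact_sphere
    (0 : Fin (B + 1) → Fin (B + C + 1 + 1) → ℝ) 1).tendsto_subseq hbs
  have hφt : Tendsto φ atTop atTop := hφ.tendsto_atTop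
  -- the limit equations
  have hzero : ∀ N : ℕ, ∑ i : Fin (B + 1), ∑ k : Fin (B + C + 1 + 1),
      (if (k : ℕ) ≤ N then c i k * ((N - k : ℕ) : ℝ) ^ (i : ℕ) * FL m (N - k) else 0) = 0 := by
    intro N
    -- the remainder
    have hrem : Tendsto (fun j => ∑ i : Fin (B + 1), ∑ k ∈ range (N + 1),
        (if B + C + 1 + 1 + k ≤ N then ah (r j) (A j) (m₀ j) i (B + C + 1 + 1 + k) *
          ((N - (B + C + 1 + 1 + k) : ℕ) : ℝ) ^ (i : ℕ) *
            wh (r j) (W j) (N - (B + C + 1 + 1 + k)) else 0)) atTop (𝓝 0) := by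
      have h3 : ∑ i : Fin (B + 1), ∑ k ∈ range (N + 1), (0 : ℝ) = 0 := by simp
      rw [show 𝓝 (0 : ℝ) = 𝓝 (∑ i : Fin (B + 1), ∑ k ∈ range (N + 1), (0 : ℝ)) by rw [h3]]
      refine tendsto_finsetSum _ fun i _ => tendsto_finsetSum _ fun k _ => ?_
      split_ifs with hk
      · have h4 : Tendsto (fun j => ah (r j) (A j) (m₀ j) i (B + C + 1 + 1 + k)) atTop (𝓝 0) := by
          rw [tendsto_zero_iff_abs_tendsto_zero]
          refine squeeze_zero' (Eventually.of_forall fun j => abs_nonneg _) ?_ hrinv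
          filter_upwards [eventually_ge_atTop N] with j hj
          refine ah_bound (C := C) (hr1 j) (A j) (m₀ j) i _ (by omega) ?_
          refine hA3 j i _ ?_
          have h5 : B + C + 1 + 1 + k ≤ r j := by have := hr j; omega
          have h6 : r j * (B + C + 1 + 1 + k) ≤ r j * r j := Nat.mul_le_mul_left _ h5
          rw [sq]
          omega
        have h7 := (h4.mul_const (((N - (B + C + 1 + 1 + k) : ℕ) : ℝ) ^ (i : ℕ))).mul
          (hw (N - (B + C + 1 + 1 + k)))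
        rw [zero_mul, zero_mul] at h7
        exact h7
      · exact tendsto_const_nhds
    -- the truncated sum
    have htr : ∀ᶠ j in atTop, ∑ i : Fin (B + 1), ∑ k : Fin (B + C + 1 + 1),
        (if (k : ℕ) ≤ N then a j i k * ((N - k : ℕ) : ℝ) ^ (i : ℕ) * wh (r j) (W j) (N - k) else 0) =
        -∑ i : Fin (B + 1), ∑ k ∈ range (N + 1),
        (if B + C + 1 + 1 + k ≤ N then ah (r j) (A j) (m₀ j) i (B + C + 1 + 1 + k) *
          ((N - (B + C + 1 + 1 + k) : ℕ) : ℝ) ^ (i : ℕ) *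
            wh (r j) (W j) (N - (B + C + 1 + 1 + k)) else 0) := by
      filter_upwards [eventually_ge_atTop N] with j hj
      have h3 : N ≤ r j := by have := hr j; omega
      have h4 : r j * N ≤ r j * r j := Nat.mul_le_mul_left _ h3
      have h5 := key (hr1 j) (W j) (hW0 j) (A j) (m₀ j) (hA2 j) N
        (hA4 j _ (by rw [sq]; omega))
      have h6 : ∀ i : Fin (B + 1), ∑ k ∈ range (N + 1), ah (r j) (A j) (m₀ j) i k *
          ((N - k : ℕ) : ℝ) ^ (i : ℕ) * wh (r j) (W j) (N - k) =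
          ∑ k : Fin (B + C + 1 + 1), (if (k : ℕ) ≤ N then a j i k *
            ((N - k : ℕ) : ℝ) ^ (i : ℕ) * wh (r j) (W j) (N - k) else 0) +
          ∑ k ∈ range (N + 1),
            (if B + C + 1 + 1 + k ≤ N then ah (r j) (A j) (m₀ j) i (B + C + 1 + 1 + k) *
              ((N - (B + C + 1 + 1 + k) : ℕ) : ℝ) ^ (i : ℕ) *
                wh (r j) (W j) (N - (B + C + 1 + 1 + k)) else 0) := by
        intro i
        have h7 := split_sum (B + C + 1) N (fun k => if k ≤ N then ah (r j) (A j) (m₀ j) i k *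
          ((N - k : ℕ) : ℝ) ^ (i : ℕ) * wh (r j) (W j) (N - k) else 0)
          (fun k hk => if_neg (by omega))
        have h8 : ∀ k ∈ range (N + 1), ah (r j) (A j) (m₀ j) i k *
          ((N - k : ℕ) : ℝ) ^ (i : ℕ) * wh (r j) (W j) (N - k) =
          (fun k => if k ≤ N then ah (r j) (A j) (m₀ j) i k *
            ((N - k : ℕ) : ℝ) ^ (i : ℕ) * wh (r j) (W j) (N - k) else 0) k := by
          intro k hk
          rw [mem_range] at hk
          exact (if_pos (by omega)).symm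
        rw [sum_congr rfl h8, h7, ha]
      rw [sum_congr rfl fun i _ => h6 i, sum_add_distrib] at h5
      linarith
    have hT0 : Tendsto (fun j => ∑ i : Fin (B + 1), ∑ k : Fin (B + C + 1 + 1),
        (if (k : ℕ) ≤ N then a j i k * ((N - k : ℕ) : ℝ) ^ (i : ℕ) * wh (r j) (W j) (N - k) else 0))
        atTop (𝓝 0) := by
      have h3 := hrem.neg
      rw [neg_zero] at h3
      refine h3.congr' ?_
      filter_upwards [htr] with j hj using hj.symm
    have hTb : Tendsto (fun j => ∑ i : Fin (B + 1), ∑ k : Fin (B + C + 1 + 1),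
        (if (k : ℕ) ≤ N then b j i k * ((N - k : ℕ) : ℝ) ^ (i : ℕ) * wh (r j) (W j) (N - k) else 0))
        atTop (𝓝 0) := by
      have h3 : ∀ j, ∑ i : Fin (B + 1), ∑ k : Fin (B + C + 1 + 1),
          (if (k : ℕ) ≤ N then b j i k * ((N - k : ℕ) : ℝ) ^ (i : ℕ) * wh (r j) (W j) (N - k)
            else 0) = ‖a j‖⁻¹ * ∑ i : Fin (B + 1), ∑ k : Fin (B + C + 1 + 1),
          (if (k : ℕ) ≤ N then a j i k * ((N - k : ℕ) : ℝ) ^ (i : ℕ) * wh (r j) (W j) (N - k)
            else 0) := by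
        intro j
        rw [mul_sum]
        refine sum_congr rfl fun i _ => ?_
        rw [mul_sum]
        refine sum_congr rfl fun k _ => ?_
        rw [hb]
        simp only [Pi.smul_apply, smul_eq_mul]
        split_ifs
        · ring
        · ring
      simp only [h3]
      rw [tendsto_zero_iff_abs_tendsto_zero] at hT0 ⊢
      refine squeeze_zero (fun j => abs_nonneg _) (fun j => ?_) hT0
      simp only [Function.comp, abs_mul, abs_inv, abs_norm]
      exact mul_le_of_le_one_left (abs_nonneg _) (inv_le_one_of_one_le₀ (hnorm j))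
    have hTc : Tendsto (fun j => ∑ i : Fin (B + 1), ∑ k : Fin (B + C + 1 + 1),
        (if (k : ℕ) ≤ N then b (φ j) i k * ((N - k : ℕ) : ℝ) ^ (i : ℕ) *
          wh (r (φ j)) (W (φ j)) (N - k) else 0)) atTop
        (𝓝 (∑ i : Fin (B + 1), ∑ k : Fin (B + C + 1 + 1),
          (if (k : ℕ) ≤ N then c i k * ((N - k : ℕ) : ℝ) ^ (i : ℕ) * FL m (N - k) else 0))) := by
      refine tendsto_finsetSum _ fun i _ => tendsto_finsetSum _ fun k _ => ?_
      split_ifs
      · refine Tendsto.mul (Tendsto.mul_const _ ?_) ((hw (N - k)).comp hφt)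
        exact (tendsto_pi_nhds.mp ((tendsto_pi_nhds.mp hlim) i)) k
      · exact tendsto_const_nhds
    exact tendsto_nhds_unique hTc (hTb.comp hφt)
  have hc0 := h2 B m (B + C + 1) hm c hzero
  have hc1 : c = 0 := by
    funext i k
    exact hc0 i k
  rw [mem_sphere_zero_iff_norm, hc1, norm_zero] at hc
  exact zero_ne_one hc

end Pool.Agent.H400.EG
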